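import Pool.Agent.R98.Upper
import Pool.Agent.R98.Moments
import Pool.Agent.R98.Gap

/-!
# Packing the progressions `{p, 2p, ..., np}`, `p ≤ n` prime

The least packing length is asymptotic to `n ^ 3 / (6 ln n)`.
-/

set_option autoImplicit false

open Finset Filter Topology

namespace Pool.Agent.Results.MP_a180f1_co.PrimeAsymptotic

open Pool.Agent.R98

/-- `B_d = {d, 2d, ..., nd}` -/
def B (n d : ℕ) : Finset ℤ := (Icc 1 n).image (fun v : ℕ => (v : ℤ) * d)

/-- The sets `B_d`, `d ∈ D`, pack into `{1, ..., m}`: there are integer translates `s_d + B_d`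
inside `{1, ..., m}` which are pairwise disjoint. -/
def PacksInto (n : ℕ) (D : Finset ℕ) (m : ℕ) : Prop :=
  ∃ s : ℕ → ℤ, (∀ d ∈ D, ∀ a ∈ B n d, 1 ≤ s d + a ∧ s d + a ≤ m) ∧
    ∀ d ∈ D, ∀ e ∈ D, d ≠ e → ∀ a ∈ B n d, ∀ b ∈ B n e, s d + a ≠ s e + b

/-- `M_D(n)`: the least `m` such that the sets `B_d`, `d ∈ D`, pack into `{1, ..., m}`. -/
noncomputable def M (n : ℕ) (D : Finset ℕ) : ℕ := sInf {m : ℕ | PacksInto n D m}

/-- the primes `p ≤ n` -/
def P (n : ℕ) : Finset ℕ := (Icc 1 n).filter Nat.Prime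

lemma packsInto_iff (n : ℕ) (D : Finset ℕ) (m : ℕ) :
    PacksInto n D m ↔ Packs D (fun _ => n) m := by
  unfold PacksInto Packs B
  simp only [Finset.mem_image, forall_exists_index, and_imp, forall_apply_eq_imp_iff₂]

lemma exists_packsInto (n : ℕ) : ∃ m, PacksInto n (P n) m := by
  refine ⟨(P n).card * (n * n), (packsInto_iff _ _ _).2 (packs_trivial ?_ ?_)⟩
  · intro p hp; exact (Finset.mem_filter.1 hp).2.pos
  · intro p hp
    have := (Finset.mem_Icc.1 (Finset.mem_filter.1 hp).1).2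
    exact Nat.mul_le_mul_left _ this

lemma packsInto_M (n : ℕ) : PacksInto n (P n) (M n (P n)) :=
  Nat.sInf_mem (exists_packsInto n)

/-- the lower bound -/
lemma lower (n : ℕ) (hn : 3 ≤ n) :
    ∑ p ∈ P n, ((n : ℤ) * p - (p : ℤ) ^ 2) - 2 * (n : ℤ) ^ 2 ≤ M n (P n) := by
  obtain ⟨s, h1, h2⟩ := (packsInto_iff _ _ _).1 (packsInto_M n)
  have hn1 : 1 ≤ n := by omega
  set Q := (P n).erase n with hQ
  have hQP : ∀ p ∈ Q, p.Prime ∧ p + 1 ≤ n := by
    intro p hp
    rw [hQ, Finset.mem_erase, P, Finset.mem_filter, Finset.mem_Icc] at hp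
    exact ⟨hp.2.2, by omega⟩
  have hQmem : ∀ p ∈ Q, p ∈ P n := fun p hp => Finset.mem_of_mem_erase hp
  have hQne : Q.Nonempty := ⟨2, by
    rw [hQ, Finset.mem_erase, P, Finset.mem_filter, Finset.mem_Icc]
    exact ⟨by omega, ⟨by omega, by omega⟩, Nat.prime_two⟩⟩
  -- starting points
  set y : ℕ → ℤ := fun p => s p + p with hy
  have hdis : ∀ p ∈ Q, ∀ q ∈ Q, p ≠ q → ∀ u < n, ∀ v < n, y p + (u : ℤ) * p ≠ y q + (v : ℤ) * q := by
    intro p hp q hq hpq u hu v hv heq
    apply h2 p (hQmem p hp) q (hQmem q hq) hpq (u + 1) (Finset.mem_Icc.2 ⟨Nat.succ_pos u, hu⟩)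
      (v + 1) (Finset.mem_Icc.2 ⟨Nat.succ_pos v, hv⟩)
    rw [hy] at heq
    push_cast
    simp only at heq
    linarith
  have hinj : Set.InjOn y (Q : Set ℕ) := by
    intro p hp q hq hpq
    by_contra hne
    apply hdis p hp q hq hne 0 (by omega) 0 (by omega)
    simpa using hpq
  obtain ⟨a, ha, b, hb, hab⟩ := chain_length Q hQne y (fun p => ((n : ℤ) - 1) * p) hinj
    ((n : ℤ) ^ 2) (by
      intro p hp
      have := (hQP p hp).2
      have h3 : (p : ℤ) + 1 ≤ n := by exact_mod_cast this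
      have h4 : (0 : ℤ) ≤ p := by positivity
      nlinarith) (by
      intro p hp q hq hpq
      have hp1 := hQP p hp
      have hq1 := hQP q hq
      have hne : p ≠ q := by rintro rfl; exact absurd hpq (lt_irrefl _)
      have h3 : (p : ℤ) + 1 ≤ n := by exact_mod_cast hp1.2
      have h4 : (0 : ℤ) < q := by exact_mod_cast hq1.1.pos
      rcases crt_gap ((Nat.coprime_primes hp1.1 hq1.1).2 hne) hp1.1.pos hq1.1.pos (y p) (y q) hpq.le
        n n (hdis p hp q hq hne) with h | h
      · linarith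
      · nlinarith)
  have hy1 : 1 ≤ y a := by
    have := (h1 a (hQmem a ha) 1 (Finset.mem_Icc.2 ⟨le_rfl, hn1⟩)).1
    rw [hy]
    push_cast at this
    simp only
    linarith
  have hy2 : y b ≤ M n (P n) := by
    have := (h1 b (hQmem b hb) 1 (Finset.mem_Icc.2 ⟨le_rfl, hn1⟩)).2
    rw [hy]
    push_cast at this
    simp only
    linarith
  have hsum : ∑ p ∈ P n, ((n : ℤ) * p - (p : ℤ) ^ 2) - (n : ℤ) ^ 2
      ≤ ∑ p ∈ Q, (((n : ℤ) - 1) * p - (p : ℤ) ^ 2) := by
    have h3 : ∑ p ∈ P n, ((n : ℤ) * p - (p : ℤ) ^ 2) ≤ ∑ p ∈ Q, ((n : ℤ) * p - (p : ℤ) ^ 2) := by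
      by_cases hnP : n ∈ P n
      · rw [← Finset.add_sum_erase _ _ hnP, ← hQ]
        have : (n : ℤ) * n - (n : ℤ) ^ 2 = 0 := by ring
        rw [this, zero_add]
      · rw [hQ, Finset.erase_eq_of_notMem hnP]
    have h4 : ∑ p ∈ Q, ((n : ℤ) * p - (p : ℤ) ^ 2)
        = ∑ p ∈ Q, (((n : ℤ) - 1) * p - (p : ℤ) ^ 2) + ∑ p ∈ Q, (p : ℤ) := by
      rw [← Finset.sum_add_distrib]
      apply Finset.sum_congr rfl
      intro p _
      ring
    have h5 : ∑ p ∈ Q, (p : ℤ) ≤ (n : ℤ) ^ 2 := by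
      calc ∑ p ∈ Q, (p : ℤ) ≤ ∑ p ∈ Q, (n : ℤ) := by
            apply Finset.sum_le_sum
            intro p hp
            have := (hQP p hp).2
            exact_mod_cast (by omega : p ≤ n)
        _ = Q.card * (n : ℤ) := by rw [Finset.sum_const, nsmul_eq_mul]
        _ ≤ n * (n : ℤ) := by
            have : Q.card ≤ n := by
              calc Q.card ≤ (P n).card := Finset.card_le_card (Finset.erase_subset _ _)
                _ ≤ (Icc 1 n).card := Finset.card_filter_le _ _
                _ = n := by simp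
            exact_mod_cast Nat.mul_le_mul_right n this
        _ = (n : ℤ) ^ 2 := by ring
    linarith
  linarith

/-- block spans -/
def L (T n b : ℕ) : ℕ := (b * n / T + n / T + 1) * n

lemma upper_n {T : ℕ} (hT : 2 ≤ T) : ∃ C n₀ : ℕ, ∀ n, n₀ ≤ n →
    (M n (P n) : ℝ) ≤ ∑ b ∈ range T, (blk T b n).card * (L T n b - ((b * n / T : ℕ) : ℝ) ^ 2
      + 2 * ((1 * n / (T * T) : ℕ) : ℝ) * ((b * n / T : ℕ) : ℝ)) + C * (n : ℝ) ^ 2 := by
  obtain ⟨C, x₀, hC⟩ := upper hT
  refine ⟨3 * C, x₀ + 1, fun n hn => ?_⟩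
  have hT0 : 0 < T := by omega
  have hXn : ∀ b < T, b * n / T ≤ n := by
    intro b hb
    calc b * n / T ≤ T * n / T := Nat.div_le_div_right (Nat.mul_le_mul_right _ (by omega))
      _ = n := Nat.mul_div_cancel_left _ hT0
  have hLX : ∀ b < T, (b * n / T) ^ 2 ≤ L T n b := by
    intro b hb
    unfold L
    rw [sq]
    exact Nat.mul_le_mul (by have := Nat.zero_le (n / T); omega) (hXn b hb)
  have h1 := hC n (by omega) (fun _ => n) (L T n) (3 * (n * n)) (by
    intro b hb p hp
    rw [blk, Finset.mem_filter, Finset.mem_Ioc] at hp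
    unfold L
    rw [mul_comm]
    apply Nat.mul_le_mul_right
    have h2 : (b + 1) * n / T ≤ b * n / T + n / T + 1 := by
      have e : (b + 1) * n = b * n + n := by ring
      rw [e]
      rw [Nat.div_le_iff_le_mul_add_pred hT0]
      have h3 : b * n < T * (b * n / T + 1) := Nat.lt_mul_div_succ _ hT0
      have h4 : n < T * (n / T + 1) := Nat.lt_mul_div_succ _ hT0
      have h5 : T * (b * n / T + n / T + 1) = T * (b * n / T + 1) + T * (n / T + 1) - T := by
        have : T * (b * n / T + 1) + T * (n / T + 1) = T * (b * n / T + n / T + 1) + T := by ring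
        omega
      omega
    omega) (by
    intro b hb
    unfold L
    have h2 := hXn b hb
    have h3 : n / T ≤ n := Nat.div_le_self _ _
    calc (b * n / T + n / T + 1) * n ≤ (3 * n) * n := Nat.mul_le_mul_right _ (by omega)
      _ = 3 * (n * n) := by ring) (by
    intro b hb hb1
    have h2 := hXn b hb
    have h4 : n < T * (n / T + 1) := Nat.lt_mul_div_succ _ hT0
    unfold L
    calc (T + 1) * (b * n / T) ^ 2 = T * (b * n / T) * (b * n / T) + (b * n / T) * (b * n / T) := by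
          ring
      _ ≤ T * (b * n / T) * n + (T * (n / T + 1)) * n := by
          apply Nat.add_le_add
          · exact Nat.mul_le_mul_left _ h2
          · exact Nat.mul_le_mul (by omega) h2
      _ = T * ((b * n / T + n / T + 1) * n) := by ring)
  have h2 : M n (P n) ≤ ∑ b ∈ range T, (blk T b n).card * shift T n (L T n) b
      + C * (3 * (n * n)) := Nat.sInf_le ((packsInto_iff _ _ _).2 h1)
  have h3 : (M n (P n) : ℝ) ≤ ∑ b ∈ range T, ((blk T b n).card : ℝ) * (shift T n (L T n) b : ℝ)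
      + C * (3 * (n * n)) := by exact_mod_cast h2
  refine h3.trans ?_
  have h4 : ∑ b ∈ range T, ((blk T b n).card : ℝ) * (shift T n (L T n) b : ℝ)
      ≤ ∑ b ∈ range T, (blk T b n).card * (L T n b - ((b * n / T : ℕ) : ℝ) ^ 2
      + 2 * ((1 * n / (T * T) : ℕ) : ℝ) * ((b * n / T : ℕ) : ℝ)) := by
    apply Finset.sum_le_sum
    intro b hb
    rw [Finset.mem_range] at hb
    apply mul_le_mul_of_nonneg_left _ (by positivity)
    exact shift_le (hLX b hb)
  have h5 : (C : ℝ) * (3 * (n * n)) = ((3 * C : ℕ) : ℝ) * (n : ℝ) ^ 2 := by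
    push_cast
    ring
  linarith

theorem result :
    (∀ n, IsLeast {m : ℕ | PacksInto n (P n) m} (M n (P n))) ∧
    Tendsto (fun n : ℕ => (M n (P n) : ℝ) * Real.log n / (n : ℝ) ^ 3) atTop (𝓝 (1 / 6)) := by
  refine ⟨fun n => ⟨packsInto_M n, fun m hm => Nat.sInf_le hm⟩, ?_⟩
  have hlog0 : Tendsto (fun n : ℕ => Real.log n / (n : ℝ)) atTop (𝓝 0) := by
    have h := Real.isLittleO_log_id_atTop.tendsto_div_nhds_zero.comp
      (tendsto_natCast_atTop_atTop (R := ℝ))
    exact h
  apply tendsto_of_eventually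
  · -- upper bound
    have key : ∀ T : ℕ, ∃ C : ℕ, 2 ≤ T → ∀ᶠ n : ℕ in atTop, (M n (P n) : ℝ) ≤
        ∑ b ∈ range T, (blk T b n).card * (L T n b - ((b * n / T : ℕ) : ℝ) ^ 2
        + 2 * ((1 * n / (T * T) : ℕ) : ℝ) * ((b * n / T : ℕ) : ℝ)) + C * (n : ℝ) ^ 2 := by
      intro T
      by_cases hT : 2 ≤ T
      · obtain ⟨C, n₀, h⟩ := upper_n hT
        exact ⟨C, fun _ => eventually_atTop.2 ⟨n₀, h⟩⟩
      · exact ⟨0, fun h => absurd h hT⟩
    choose C hC using key
    apply eventually_le_of _ _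
      (fun T n => ∑ b ∈ range T, (((blk T b n).card : ℝ) * Real.log n / n) *
        ((((b * n / T : ℕ) : ℝ) / n + ((1 * n / T : ℕ) : ℝ) / n + 1 / n)
          - (((b * n / T : ℕ) : ℝ) / n) ^ 2
          + 2 * (((1 * n / (T * T) : ℕ) : ℝ) / n) * (((b * n / T : ℕ) : ℝ) / n))
        + C T * (Real.log n / n))
      (fun T => ∑ b ∈ range T, (1 / (T : ℝ)) *
        (((b : ℝ) / T + ((1 : ℕ) : ℝ) / T + 0) - ((b : ℝ) / T) ^ 2
          + 2 * (((1 : ℕ) : ℝ) / ((T * T : ℕ) : ℝ)) * ((b : ℝ) / T)) + C T * 0)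
    · intro T hT
      filter_upwards [hC T hT, eventually_ge_atTop 1] with n hn hn1
      have hn0 : (0 : ℝ) < n := by exact_mod_cast hn1
      have hlog : 0 ≤ Real.log n := Real.log_natCast_nonneg n
      calc (M n (P n) : ℝ) * Real.log n / (n : ℝ) ^ 3
          ≤ (∑ b ∈ range T, (blk T b n).card * (L T n b - ((b * n / T : ℕ) : ℝ) ^ 2
            + 2 * ((1 * n / (T * T) : ℕ) : ℝ) * ((b * n / T : ℕ) : ℝ)) + C T * (n : ℝ) ^ 2)
            * Real.log n / (n : ℝ) ^ 3 := by gcongr
        _ = _ := by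
            rw [add_mul, add_div, Finset.sum_mul, Finset.sum_div]
            congr 1
            · apply Finset.sum_congr rfl
              intro b _
              unfold L
              rw [one_mul]
              push_cast
              field_simp
            · field_simp
    · intro T hT
      have hT1 : 1 ≤ T := by omega
      apply Tendsto.add
      · apply tendsto_finsetSum
        intro b _
        apply (tendsto_blk T b hT1).mul
        apply Tendsto.add
        · apply Tendsto.sub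
          · exact ((tendsto_div_block T b hT1).add (tendsto_div_block T 1 hT1)).add
              tendsto_one_div_atTop_nhds_zero_nat
          · exact (tendsto_div_block T b hT1).pow 2
        · exact ((tendsto_div_block (T * T) 1 (by nlinarith)).const_mul 2).mul
            (tendsto_div_block T b hT1)
      · exact hlog0.const_mul _
    · refine (tendsto_poly (1 / 6) 1 (5 / 6) (-1)).congr' ?_
      filter_upwards [eventually_ge_atTop 1] with T hT
      have hT0 : (T : ℝ) ≠ 0 := by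
        have : (0 : ℝ) < T := by exact_mod_cast hT
        exact this.ne'
      have e1 : ∀ b ∈ range T, (1 / (T : ℝ)) *
          (((b : ℝ) / T + ((1 : ℕ) : ℝ) / T + 0) - ((b : ℝ) / T) ^ 2
          + 2 * (((1 : ℕ) : ℝ) / ((T * T : ℕ) : ℝ)) * ((b : ℝ) / T))
          = (1 / (T : ℝ) ^ 2 + 2 / (T : ℝ) ^ 4) * b + 1 / (T : ℝ) ^ 2
            + (-1 / (T : ℝ) ^ 3) * (b : ℝ) ^ 2 := by
        intro b _
        push_cast
        field_simp
        ring
      rw [Finset.sum_congr rfl e1, Finset.sum_add_distrib, Finset.sum_add_distrib,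
        ← Finset.mul_sum, ← Finset.mul_sum, sum_id_range, sum_sq_range, Finset.sum_const,
        Finset.card_range, nsmul_eq_mul]
      field_simp
      ring
  · -- lower bound
    have hmom : Tendsto (fun n : ℕ => (∑ p ∈ primesTo n, (p : ℝ)) * Real.log n / n ^ 2
        - (∑ p ∈ primesTo n, (p : ℝ) ^ 2) * Real.log n / n ^ 3 - 2 * (Real.log n / n)) atTop
        (𝓝 (1 / 2 - 1 / 3 - 2 * 0)) := (moment_one.sub moment_two).sub (hlog0.const_mul 2)
    have e : (1 : ℝ) / 2 - 1 / 3 - 2 * 0 = 1 / 6 := by norm_num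
    rw [e] at hmom
    intro ε hε
    have h1 := hmom.eventually_const_lt (show (1 : ℝ) / 6 - ε < 1 / 6 by linarith)
    filter_upwards [h1, eventually_ge_atTop 3] with n hn hn3
    have hn0 : (0 : ℝ) < n := by exact_mod_cast (by omega : 0 < n)
    have hlog : 0 ≤ Real.log n := Real.log_natCast_nonneg n
    have h2 := lower n hn3
    have h3 : (∑ p ∈ P n, ((n : ℝ) * p - (p : ℝ) ^ 2) - 2 * (n : ℝ) ^ 2) ≤ M n (P n) := by
      exact_mod_cast h2
    have h4 : (∑ p ∈ P n, ((n : ℝ) * p - (p : ℝ) ^ 2) - 2 * (n : ℝ) ^ 2) * Real.log n / (n : ℝ) ^ 3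
        ≤ (M n (P n) : ℝ) * Real.log n / (n : ℝ) ^ 3 := by gcongr
    refine le_trans (le_trans hn.le (le_of_eq ?_)) h4
    rw [Finset.sum_sub_distrib, ← Finset.mul_sum]
    have e2 : primesTo n = P n := rfl
    rw [e2]
    field_simp

end Pool.Agent.Results.MP_a180f1_co.PrimeAsymptotic
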